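import Pool.Agent.Y766.R8.Stm

/-!
The first moment over a thin subgroup.
-/

set_option autoImplicit false

namespace Pool.Agent.Y766.R8

open Finset

open Classical in
/-- FMG: lower bound for the first moment of `|L(1/2+it, ψη)|` over a subgroup -/
def S_FMG : Prop := ∀ δ κ : ℝ, 0 < δ → 0 < κ → ∃ (C : ℝ) (A : ℕ),
  ∀ (q d : ℕ) [NeZero q] [NeZero d] (hd : d ∣ q) (F : Finset (DirichletCharacter ℂ d))
    (H : Subgroup (DirichletCharacter ℂ d)), (∀ η, η ∈ F ↔ η ∈ H) →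
    (q : ℝ) ^ (1 / 2 + δ) ≤ F.card → (d : ℝ) ^ (2 / 3 : ℝ) * (q : ℝ) ^ δ ≤ F.card →
    ∀ (ψ : DirichletCharacter ℂ q) (t : ℝ), C * (1 + |t|) ^ A ≤ q →
    (F.card : ℝ) * (q : ℝ) ^ (-κ) ≤
      ∑ η ∈ F.filter (fun η => ψ * DirichletCharacter.changeLevel hd η ≠ 1),
        ‖(ψ * DirichletCharacter.changeLevel hd η).LFunction (1 / 2 + (t : ℂ) * Complex.I)‖

end Pool.Agent.Y766.R8
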