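import Pool.Agent.Y766.R8.Stm
import Pool.Agent.H307R2.LU

/-!
Weighted averages of `L(s, χ)` by a truncated Dirichlet series.
-/

set_option autoImplicit false

namespace Pool.Agent.Y766.R8

open Finset MeasureTheory
open Pool.Agent.H307R2 (TM TM_integrable TM_norm_le Ech Ech_measurable Ech_norm_le)

/-- averaged truncated formula -/
theorem avg {q : ℕ} [NeZero q] {ι : Type} (I : Finset ι) (χ : ι → DirichletCharacter ℂ q)
    (w : ι → ℂ) {N : ℕ} {B : ℝ} {s : ℂ} (hχ : ∀ i ∈ I, χ i ≠ 1) (hN : 1 ≤ N) (hs : 0 < s.re)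
    (hB : ∀ x : ℕ, ‖∑ k ∈ Ioc N x, ∑ i ∈ I, w i * χ i (k : ZMod q)‖ ≤ B) :
    ‖∑ i ∈ I, w i * (χ i).LFunction s -
      ∑ n ∈ Icc 1 N, (∑ i ∈ I, w i * χ i (n : ZMod q)) * (n : ℂ) ^ (-s)‖ ≤
      ‖s‖ * (B * ((N : ℝ) ^ (-s.re) / s.re)) := by
  classical
  -- a measurable bounded version of the averaged partial sums
  set E : ℝ → ℂ := fun t => ∑ i ∈ I, w i * Ech (χ i) N t with hE
  have hEn : ∀ t, ‖E t‖ ≤ B := by
    intro t
    have h1 : E t = ∑ k ∈ Ioc N ⌊t⌋₊, ∑ i ∈ I, w i * χ i (k : ZMod q) := by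
      rw [hE]
      simp only [Ech, mul_sum]
      rw [sum_comm]
    rw [h1]
    exact hB _
  have hTM : TM N E s = ∑ i ∈ I, w i * TM N (Ech (χ i) N) s := by
    unfold TM
    rw [hE]
    simp only [sum_mul]
    rw [integral_finset_sum]
    · refine sum_congr rfl fun i _ => ?_
      rw [← integral_const_mul]
      refine integral_congr_ae (Filter.Eventually.of_forall fun t => ?_)
      simp only
      ring
    · intro i hi
      have h1 := (TM_integrable hN (Ech_measurable (χ i) N) (Ech_norm_le (hχ i hi) N) hs).const_mul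
        (w i)
      refine h1.congr (Filter.Eventually.of_forall fun t => ?_)
      simp only
      ring
  have h2 : ∑ i ∈ I, w i * (χ i).LFunction s -
      ∑ n ∈ Icc 1 N, (∑ i ∈ I, w i * χ i (n : ZMod q)) * (n : ℂ) ^ (-s) = s * TM N E s := by
    rw [hTM, mul_sum]
    have h3 : ∑ n ∈ Icc 1 N, (∑ i ∈ I, w i * χ i (n : ZMod q)) * (n : ℂ) ^ (-s) =
        ∑ i ∈ I, w i * ∑ n ∈ Icc 1 N, χ i (n : ZMod q) * (n : ℂ) ^ (-s) := by
      simp only [sum_mul, mul_sum]
      rw [sum_comm]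
      refine sum_congr rfl fun i _ => sum_congr rfl fun n _ => ?_
      ring
    rw [h3, ← sum_sub_distrib]
    refine sum_congr rfl fun i hi => ?_
    rw [Pool.Agent.H307R2.LFunction_eq (hχ i hi) hN hs]
    ring
  rw [h2, norm_mul]
  exact mul_le_mul_of_nonneg_left (TM_norm_le hN hEn hs) (norm_nonneg _)

end Pool.Agent.Y766.R8
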