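import Pool.Agent.Y766.R8.PC
import Pool.Agent.Y766.R8.Stm2
import Pool.Agent.Y766.ZE

/-!
Large values of `L(1/2+it, ψη)` over cosets of thin subgroups of characters.
-/

set_option autoImplicit false

namespace Pool.Agent.Y766.R8

open Finset

open Classical in
/-- many large values over a coset of a thin subgroup -/
theorem count_sub (hfmg : S_FMG) {δ ε : ℝ} (hδ : 0 < δ) (hε : 0 < ε) :
    ∃ (A : ℕ) (C : ℝ), ∀ (q d : ℕ) [NeZero q] [NeZero d] (hd : d ∣ q)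
      (H : Subgroup (DirichletCharacter ℂ d)) (ψ : DirichletCharacter ℂ q),
      (∀ η ∈ H, ψ * DirichletCharacter.changeLevel hd η = 1 ∨
        (ψ * DirichletCharacter.changeLevel hd η).IsPrimitive) →
      (q : ℝ) ^ (1 / 2 + δ) ≤ Nat.card H → (d : ℝ) ^ (2 / 3 + δ) ≤ Nat.card H →
      ∀ t : ℝ, C * (1 + |t|) ^ A ≤ q →
      (q : ℝ) ^ (-ε) * Nat.card H ≤
        (Nat.card {η : H // (q : ℝ) ^ (-ε) ≤ ‖(ψ * DirichletCharacter.changeLevel hd
          (η : DirichletCharacter ℂ d)).LFunction (1 / 2 + (t : ℂ) * Complex.I)‖} : ℝ) := by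
  obtain ⟨κ, hκ⟩ : ∃ κ : ℝ, κ = ε / 10 := ⟨_, rfl⟩
  have hκ0 : 0 < κ := by rw [hκ]; positivity
  obtain ⟨C1, A1, h1⟩ := hfmg (δ / 2) κ (by positivity) hκ0
  obtain ⟨C2, A2, hC2, h2⟩ := coset_final 0 hκ0
  obtain ⟨B, hB⟩ : ∃ B : ℕ, B = ⌈(A2 : ℝ) / κ⌉₊ := ⟨_, rfl⟩
  have hB1 : (A2 : ℝ) / κ ≤ B := by rw [hB]; exact Nat.le_ceil _
  refine ⟨A1 + B, |C1| + 4 ^ (1 / κ) + C2 ^ (1 / κ) + 2, ?_⟩
  intro q d _ _ hd H ψ hprim hqH hdH t ht
  have ht0 := abs_nonneg t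
  have ht1 : (1 : ℝ) ≤ 1 + |t| := by linarith
  have c0 := abs_nonneg C1
  have c1 : (0 : ℝ) ≤ 4 ^ (1 / κ) := by positivity
  have c2 : (0 : ℝ) ≤ C2 ^ (1 / κ) := by positivity
  have hpow : ∀ n : ℕ, n ≤ A1 + B → (1 + |t|) ^ n ≤ (1 + |t|) ^ (A1 + B) := fun n hn =>
    pow_le_pow_right₀ ht1 hn
  have hP1 : (1 : ℝ) ≤ (1 + |t|) ^ (A1 + B) := one_le_pow₀ ht1
  have hCq : |C1| + 4 ^ (1 / κ) + C2 ^ (1 / κ) + 2 ≤ q := by
    refine le_trans ?_ ht
    exact le_mul_of_one_le_right (by linarith) hP1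
  have hq2 : (2 : ℝ) ≤ q := by linarith
  have hq1 : (1 : ℝ) ≤ q := by linarith
  have hq0 : (0 : ℝ) < q := by linarith
  have hqn : 1 < q := by exact_mod_cast (show (1 : ℝ) < q by linarith)
  have htB : (1 + |t|) ^ B ≤ q := by
    refine le_trans (hpow B (by omega)) (le_trans ?_ ht)
    exact le_mul_of_one_le_left (by positivity) (by linarith)
  have ht3 : C1 * (1 + |t|) ^ A1 ≤ q := by
    refine le_trans ?_ ht
    calc C1 * (1 + |t|) ^ A1 ≤ |C1| * (1 + |t|) ^ A1 := by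
          gcongr
          exact le_abs_self _
      _ ≤ _ := by
          have := hpow A1 (by omega)
          have h3 : |C1| ≤ |C1| + 4 ^ (1 / κ) + C2 ^ (1 / κ) + 2 := by linarith
          gcongr
  -- the finset
  obtain ⟨F, hF⟩ : ∃ F : Finset (DirichletCharacter ℂ d), ∀ η, η ∈ F ↔ η ∈ H :=
    ⟨univ.filter (fun η => η ∈ H), fun η => by simp⟩
  have hcard : Nat.card H = F.card := Nat.subtype_card F hF
  rw [hcard] at hqH hdH ⊢
  -- sizes
  have hd0 : (0 : ℝ) < d := by exact_mod_cast Nat.pos_of_ne_zero (NeZero.ne d)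
  have hd1 : (1 : ℝ) ≤ d := by exact_mod_cast NeZero.one_le (n := d)
  have hFd : (F.card : ℝ) ≤ d := by
    have e1 := DirichletCharacter.card_eq_totient_of_hasEnoughRootsOfUnity ℂ d
    have e2 : F.card ≤ Fintype.card (DirichletCharacter ℂ d) := card_le_univ _
    rw [Nat.card_eq_fintype_card] at e1
    rw [e1] at e2
    exact_mod_cast e2.trans (Nat.totient_le d)
  have hdq : (q : ℝ) ^ (1 / 2 : ℝ) ≤ d := by
    refine le_trans ?_ (hqH.trans hFd)
    exact Real.rpow_le_rpow_of_exponent_le hq1 (by linarith)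
  have hqH' : (q : ℝ) ^ (1 / 2 + δ / 2) ≤ F.card := by
    refine le_trans ?_ hqH
    exact Real.rpow_le_rpow_of_exponent_le hq1 (by linarith)
  have hdH' : (d : ℝ) ^ (2 / 3 : ℝ) * (q : ℝ) ^ (δ / 2) ≤ F.card := by
    refine le_trans ?_ hdH
    rw [Real.rpow_add hd0]
    refine mul_le_mul_of_nonneg_left ?_ (by positivity)
    calc (q : ℝ) ^ (δ / 2) = ((q : ℝ) ^ (1 / 2 : ℝ)) ^ δ := by
          rw [← Real.rpow_mul hq0.le]; congr 1; ring
      _ ≤ (d : ℝ) ^ δ := Real.rpow_le_rpow (by positivity) hdq hδ.le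
  have hF0 : (0 : ℝ) < F.card := lt_of_lt_of_le (by positivity) hqH
  -- the two moments
  have m1 := h1 q d hd F H hF hqH' hdH' ψ t ht3
  have m2 := h2 q d hqn hd F ⟨H, Fin.elim0, Fin.elim0, by
    intro θ
    rw [hF]
    constructor
    · intro h
      exact ⟨θ, h, Fin.elim0, fun i => i.elim0, by simp⟩
    · rintro ⟨η, hη, j, -, rfl⟩
      simpa using hη, by rw [hcard]; simp⟩
    (by
      refine le_trans ?_ hdH
      exact Real.rpow_le_rpow_of_exponent_le hd1 (by linarith))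
    (by
      refine le_trans ?_ hqH
      exact Real.rpow_le_rpow_of_exponent_le hq1 (by linarith)) ψ t
  set ch : DirichletCharacter ℂ d → DirichletCharacter ℂ q := fun η =>
    ψ * DirichletCharacter.changeLevel hd η with hch
  set f : DirichletCharacter ℂ d → ℝ := fun η =>
    ‖(ch η).LFunction (1 / 2 + (t : ℂ) * Complex.I)‖ with hf
  set I := F.filter (fun η => ch η ≠ 1) with hI
  have m1' : (F.card : ℝ) * (q : ℝ) ^ (-κ) ≤ ∑ η ∈ I, f η := m1
  have m2' : ∑ η ∈ I, f η ^ 2 ≤ C2 * (1 + |t|) ^ A2 * (q : ℝ) ^ κ * F.card := by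
    refine le_trans (sum_le_sum_of_subset_of_nonneg ?_ fun i _ _ => by positivity) m2
    intro η hη
    rw [hI, mem_filter] at hη
    rw [mem_filter]
    refine ⟨hη.1, ?_⟩
    rcases hprim η ((hF η).1 hη.1) with h | h
    · exact absurd h hη.2
    · exact h
  -- absorb the constants
  have hroot : ∀ x : ℝ, 0 ≤ x → x ^ (1 / κ) ≤ q → x ≤ (q : ℝ) ^ κ := by
    intro x hx h
    calc x = (x ^ (1 / κ)) ^ κ := by
          rw [← Real.rpow_mul hx, one_div_mul_cancel hκ0.ne', Real.rpow_one]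
      _ ≤ (q : ℝ) ^ κ := Real.rpow_le_rpow (by positivity) h hκ0.le
  have h4q : (4 : ℝ) ≤ (q : ℝ) ^ κ := hroot 4 (by norm_num) (by linarith)
  have hC2q : C2 ≤ (q : ℝ) ^ κ := hroot C2 hC2.le (by linarith)
  have htA2 : (1 + |t|) ^ A2 ≤ (q : ℝ) ^ κ := by
    have k1 : (A2 : ℝ) ≤ B * κ := by rwa [div_le_iff₀ hκ0] at hB1
    calc (1 + |t|) ^ A2 = (1 + |t|) ^ ((A2 : ℝ)) := (Real.rpow_natCast _ _).symm
      _ ≤ (1 + |t|) ^ ((B : ℝ) * κ) := Real.rpow_le_rpow_of_exponent_le (by linarith) k1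
      _ = ((1 + |t|) ^ B) ^ κ := by
          rw [Real.rpow_mul (by linarith), Real.rpow_natCast]
      _ ≤ (q : ℝ) ^ κ := Real.rpow_le_rpow (by positivity) htB hκ0.le
  have key := many_large (ι := {η // η ∈ I}) (fun η => f η.1) (fun η => norm_nonneg _)
    (a := F.card * (q : ℝ) ^ (-κ) / 2) (b := (q : ℝ) ^ (-ε) * F.card) (V := (q : ℝ) ^ (-ε))
    (S := (q : ℝ) ^ (3 * κ) * F.card) (by positivity) (by positivity) (by positivity) (by
      have e1 : (Fintype.card {η // η ∈ I} : ℝ) ≤ F.card := by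
        rw [Fintype.card_coe]
        exact_mod_cast card_le_card (filter_subset _ _)
      calc _ ≤ (F.card : ℝ) * (q : ℝ) ^ (-ε) := by gcongr
        _ ≤ F.card * ((q : ℝ) ^ (-κ) / 2) := by
            refine mul_le_mul_of_nonneg_left ?_ hF0.le
            have k1 : 2 * (q : ℝ) ^ (-ε) ≤ (q : ℝ) ^ (-κ) := by
              calc 2 * (q : ℝ) ^ (-ε) ≤ (q : ℝ) ^ κ * (q : ℝ) ^ (-ε) := by gcongr; linarith
                _ = (q : ℝ) ^ (κ + -ε) := (Real.rpow_add hq0 _ _).symm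
                _ ≤ (q : ℝ) ^ (-κ) := Real.rpow_le_rpow_of_exponent_le hq1 (by rw [hκ]; linarith)
            linarith
        _ = _ := by ring) (by
      rw [sum_coe_sort I (fun η => f η)]
      linarith) (by
      rw [sum_coe_sort I (fun η => f η ^ 2)]
      refine m2'.trans ?_
      calc C2 * (1 + |t|) ^ A2 * (q : ℝ) ^ κ * F.card
          ≤ (q : ℝ) ^ κ * (q : ℝ) ^ κ * (q : ℝ) ^ κ * F.card := by gcongr
        _ = _ := by
            rw [← Real.rpow_add hq0, ← Real.rpow_add hq0]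
            congr 2
            ring) (by
      have k1 : (q : ℝ) ^ (-ε) * (q : ℝ) ^ (3 * κ) ≤ ((q : ℝ) ^ (-κ) / 2) ^ 2 := by
        have k2 : 4 * ((q : ℝ) ^ (-ε) * (q : ℝ) ^ (3 * κ)) ≤ ((q : ℝ) ^ (-κ)) ^ 2 := by
          calc 4 * ((q : ℝ) ^ (-ε) * (q : ℝ) ^ (3 * κ))
              ≤ (q : ℝ) ^ κ * ((q : ℝ) ^ (-ε) * (q : ℝ) ^ (3 * κ)) := by gcongr
            _ = (q : ℝ) ^ (κ + (-ε + 3 * κ)) := by rw [← Real.rpow_add hq0, ← Real.rpow_add hq0]
            _ ≤ (q : ℝ) ^ (-κ * 2) := Real.rpow_le_rpow_of_exponent_le hq1 (by rw [hκ]; linarith)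
            _ = ((q : ℝ) ^ (-κ)) ^ 2 := by rw [Real.rpow_mul hq0.le]; norm_num
        have k3 : ((q : ℝ) ^ (-κ) / 2) ^ 2 = ((q : ℝ) ^ (-κ)) ^ 2 / 4 := by ring
        rw [k3]; linarith
      calc (q : ℝ) ^ (-ε) * F.card * ((q : ℝ) ^ (3 * κ) * F.card)
          = ((q : ℝ) ^ (-ε) * (q : ℝ) ^ (3 * κ)) * (F.card : ℝ) ^ 2 := by ring
        _ ≤ ((q : ℝ) ^ (-κ) / 2) ^ 2 * (F.card : ℝ) ^ 2 := by gcongr
        _ = _ := by ring)
  refine key.trans ?_
  have hle : Nat.card {x : {η // η ∈ I} // (q : ℝ) ^ (-ε) ≤ f x.1} ≤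
      Nat.card {η : H // (q : ℝ) ^ (-ε) ≤ ‖(ψ * DirichletCharacter.changeLevel hd
          (η : DirichletCharacter ℂ d)).LFunction (1 / 2 + (t : ℂ) * Complex.I)‖} := by
    refine Nat.card_le_card_of_injective
      (fun x => ⟨⟨x.1.1, (hF _).1 (mem_filter.1 x.1.2).1⟩, x.2⟩) ?_
    intro x y hxy
    simp only [Subtype.mk.injEq] at hxy
    exact Subtype.ext (Subtype.ext hxy)
  exact_mod_cast hle

end Pool.Agent.Y766.R8
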