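import Pool.Agent.Y766.R8.AV
import Pool.Agent.Y766.R3.TE

/-!
The first moment of `L(s, χθ)` over all characters `θ` mod `p^m`.
-/

set_option autoImplicit false

namespace Pool.Agent.Y766.R8

open Finset
open Pool.Agent.Y766.R3 (prim_mul)

/-- the sum over a residue class -/
lemma class_sum (P l0 : ℕ) (hl : 1 ≤ l0) (hlP : l0 < P) (g : ℕ → ℂ) (x : ℕ) :
    ∑ k ∈ (Icc 1 x).filter (fun k => k % P = l0), g k =
      ∑ j ∈ range ((x + P - l0) / P), g (l0 + P * j) := by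
  have hP : 0 < P := by omega
  symm
  refine sum_bij (fun j _ => l0 + P * j) ?_ ?_ ?_ ?_
  · intro j hj
    rw [mem_range, Nat.lt_iff_add_one_le, Nat.le_div_iff_mul_le hP] at hj
    rw [mem_filter, mem_Icc]
    have h1 : (j + 1) * P = P * j + P := by ring
    rw [h1] at hj
    refine ⟨⟨by omega, by omega⟩, ?_⟩
    rw [Nat.add_mul_mod_self_left, Nat.mod_eq_of_lt hlP]
  · intro a _ b _ h
    have h1 : P * a = P * b := by omega
    exact Nat.eq_of_mul_eq_mul_left hP h1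
  · intro k hk
    rw [mem_filter, mem_Icc] at hk
    have h1 := Nat.div_add_mod k P
    rw [hk.2] at h1
    refine ⟨k / P, ?_, by omega⟩
    rw [mem_range, Nat.lt_iff_add_one_le, Nat.le_div_iff_mul_le hP]
    have h2 : (k / P + 1) * P = P * (k / P) + P := by ring
    rw [h2]
    omega
  · intro j _
    rfl

/-- `∑ 1/√j` -/
lemma sum_inv_sqrt (n : ℕ) : ∑ j ∈ Icc 1 n, (j : ℝ) ^ (-(1 / 2) : ℝ) ≤ 2 * Real.sqrt n := by
  induction n with
  | zero => simp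
  | succ n ih =>
    rw [sum_Icc_succ_top (by omega)]
    have h1 : (((n + 1 : ℕ) : ℝ)) ^ (-(1 / 2) : ℝ) = 1 / Real.sqrt ((n : ℝ) + 1) := by
      rw [Real.rpow_neg (by positivity), Real.sqrt_eq_rpow, one_div]
      push_cast
      rw [one_div]
    rw [h1]
    have h2 : 0 < Real.sqrt ((n : ℝ) + 1) := Real.sqrt_pos.2 (by positivity)
    have h3 := Real.sq_sqrt (show (0 : ℝ) ≤ (n : ℝ) + 1 by positivity)
    have h4 := Real.sq_sqrt (show (0 : ℝ) ≤ (n : ℝ) by positivity)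
    have h5 := Real.sqrt_nonneg (n : ℝ)
    have h6 : 1 / Real.sqrt ((n : ℝ) + 1) ≤ 2 * (Real.sqrt ((n : ℝ) + 1) - Real.sqrt n) := by
      rw [div_le_iff₀ h2]
      nlinarith [sq_nonneg (Real.sqrt ((n : ℝ) + 1) - Real.sqrt n)]
    push_cast
    linarith

/-- the orthogonality relation on a coset -/
lemma coset_orth {p ν m : ℕ} [Fact p.Prime] (hm : 1 ≤ m) (hmν : m < ν)
    (χ : DirichletCharacter ℂ (p ^ ν)) {l0 : ℕ} (hl0 : ¬ p ∣ l0) (n : ℕ) :
    ∑ θ : DirichletCharacter ℂ (p ^ m),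
      (starRingEnd ℂ) ((χ * DirichletCharacter.changeLevel (pow_dvd_pow p hmν.le) θ)
        (l0 : ZMod (p ^ ν))) * (χ * DirichletCharacter.changeLevel (pow_dvd_pow p hmν.le) θ)
        (n : ZMod (p ^ ν)) =
      if n % p ^ m = l0 % p ^ m then ((p ^ m).totient : ℂ) * ((starRingEnd ℂ) (χ (l0 : ZMod (p ^ ν))) *
        χ (n : ZMod (p ^ ν))) else 0 := by
  classical
  have hp : p.Prime := Fact.out
  haveI : NeZero (p ^ ν) := ⟨pow_ne_zero _ hp.ne_zero⟩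
  haveI : NeZero (p ^ m) := ⟨pow_ne_zero _ hp.ne_zero⟩
  have hdvd : p ^ m ∣ p ^ ν := pow_dvd_pow p hmν.le
  have hunit : ∀ (k : ℕ) (a : ℕ), 1 ≤ k → (IsUnit (a : ZMod (p ^ k)) ↔ ¬ p ∣ a) := by
    intro k a hk
    rw [ZMod.isUnit_iff_coprime, Nat.coprime_pow_right_iff (by omega), Nat.coprime_comm,
      hp.coprime_iff_not_dvd]
  have hcl : ∀ (θ : DirichletCharacter ℂ (p ^ m)) (a : ℕ), IsUnit (a : ZMod (p ^ ν)) →
      (DirichletCharacter.changeLevel hdvd θ) (a : ZMod (p ^ ν)) = θ (a : ZMod (p ^ m)) := by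
    intro θ a ha
    obtain ⟨u, hu⟩ := ha
    rw [← hu, DirichletCharacter.changeLevel_eq_cast_of_dvd, hu, ZMod.cast_natCast hdvd]
  have hul : IsUnit (l0 : ZMod (p ^ ν)) := (hunit ν l0 (by omega)).2 hl0
  have hulm : IsUnit (l0 : ZMod (p ^ m)) := (hunit m l0 hm).2 hl0
  by_cases hn : p ∣ n
  · have h1 : ¬ IsUnit (n : ZMod (p ^ ν)) := fun h => (hunit ν n (by omega)).1 h hn
    have h2 : ∀ θ : DirichletCharacter ℂ (p ^ m),
        (χ * DirichletCharacter.changeLevel hdvd θ) (n : ZMod (p ^ ν)) = 0 := fun θ =>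
      MulChar.map_nonunit _ h1
    simp_rw [h2, mul_zero, sum_const_zero]
    rw [if_neg]
    intro h
    have h3 : n ≡ l0 [MOD p] := Nat.ModEq.of_dvd (dvd_pow_self p (by omega)) h
    exact hl0 ((h3.dvd_iff (dvd_refl p)).1 hn)
  · have hun : IsUnit (n : ZMod (p ^ ν)) := (hunit ν n (by omega)).2 hn
    have e1 : ∀ θ : DirichletCharacter ℂ (p ^ m),
        (starRingEnd ℂ) ((χ * DirichletCharacter.changeLevel hdvd θ) (l0 : ZMod (p ^ ν))) *
          (χ * DirichletCharacter.changeLevel hdvd θ) (n : ZMod (p ^ ν)) =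
        ((starRingEnd ℂ) (χ (l0 : ZMod (p ^ ν))) * χ (n : ZMod (p ^ ν))) *
          (θ ((l0 : ZMod (p ^ m))⁻¹) * θ (n : ZMod (p ^ m))) := by
      intro θ
      rw [MulChar.mul_apply, MulChar.mul_apply, hcl θ l0 hul, hcl θ n hun, map_mul]
      have e2 : (starRingEnd ℂ) (θ (l0 : ZMod (p ^ m))) = θ ((l0 : ZMod (p ^ m))⁻¹) := by
        have h3 := MulChar.star_apply' θ (l0 : ZMod (p ^ m))
        rw [starRingEnd_apply, h3, MulChar.inv_apply]
        obtain ⟨u, hu⟩ := hulm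
        rw [← hu, Ring.inverse_unit, ZMod.inv_coe_unit]
      rw [e2]
      ring
    simp_rw [e1]
    rw [← mul_sum, DirichletCharacter.sum_char_inv_mul_char_eq ℂ hulm (n : ZMod (p ^ m))]
    by_cases h : (l0 : ZMod (p ^ m)) = (n : ZMod (p ^ m))
    · rw [if_pos h, if_pos]
      · ring
      · exact ((ZMod.natCast_eq_natCast_iff l0 n (p ^ m)).1 h).symm
    · rw [if_neg h, if_neg, mul_zero]
      intro h4
      exact h ((ZMod.natCast_eq_natCast_iff l0 n (p ^ m)).2 (Nat.ModEq.symm h4))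

/-- the first moment -/
theorem first_moment (hinc : S_INC) {p ν m : ℕ} [Fact p.Prime] (hp2 : p ≠ 2) (hm : 1 ≤ m)
    (hmν : 2 * m ≤ ν) (hmν' : m < ν) (χ : DirichletCharacter ℂ (p ^ ν)) (hχ : χ.IsPrimitive) :
    ∃ a : ℤ, ¬ (p : ℤ) ∣ a ∧ 2 * |a| ≤ (p : ℤ) ^ m ∧
      ∀ l0 : ℕ, 1 ≤ l0 → l0 < p ^ m → ¬ p ∣ l0 → ¬ (l0 : ℤ) ∣ a → ∀ (J1 : ℕ) (t : ℝ),
        ‖∑ θ : DirichletCharacter ℂ (p ^ m),
          (starRingEnd ℂ) ((χ * DirichletCharacter.changeLevel (pow_dvd_pow p hmν'.le) θ)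
            (l0 : ZMod (p ^ ν))) * (χ * DirichletCharacter.changeLevel (pow_dvd_pow p hmν'.le)
            θ).LFunction (1 / 2 + (t : ℂ) * Complex.I) -
          ((p ^ m).totient : ℂ) * (l0 : ℂ) ^ (-(1 / 2 + (t : ℂ) * Complex.I))‖ ≤
        ((p ^ m).totient : ℝ) * (2 * Real.sqrt J1 * ((p : ℝ) ^ m) ^ (-(1 / 2) : ℝ) +
          (1 + |t|) * (2 * (10 * l0 * (p : ℝ) ^ ((ν + 1) / 2) * (1 + ν * Real.log p) / (p : ℝ) ^ m)) *
            (2 * ((l0 + p ^ m * J1 : ℕ) : ℝ) ^ (-(1 / 2) : ℝ))) := by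
  classical
  have hp : p.Prime := Fact.out
  haveI : NeZero (p ^ ν) := ⟨pow_ne_zero _ hp.ne_zero⟩
  haveI : NeZero (p ^ m) := ⟨pow_ne_zero _ hp.ne_zero⟩
  obtain ⟨a, ha1, ha2, ha⟩ := hinc p ν m hp hp2 hm hmν χ hχ
  refine ⟨a, ha1, ha2, ?_⟩
  intro l0 hl1 hlP hpl hla J1 t
  have hT := ha l0 hpl hla
  set T : ℝ := 10 * l0 * (p : ℝ) ^ ((ν + 1) / 2) * (1 + ν * Real.log p) / (p : ℝ) ^ m with hTd
  set P : ℕ := p ^ m with hP
  have hP0 : 0 < P := pow_pos hp.pos m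
  set s : ℂ := 1 / 2 + (t : ℂ) * Complex.I with hs
  have hsre : s.re = 1 / 2 := by rw [hs]; simp
  set N : ℕ := l0 + P * J1 with hN
  set Φ : ℂ := (P.totient : ℂ) with hΦ
  set c0 : ℂ := (starRingEnd ℂ) (χ (l0 : ZMod (p ^ ν))) with hc0
  have hc0n : ‖c0‖ ≤ 1 := by
    rw [hc0, RCLike.norm_conj]; exact χ.norm_le_one _
  have horth := coset_orth hm hmν' χ hpl
  have hmod : l0 % P = l0 := Nat.mod_eq_of_lt hlP
  -- sums over initial segments
  have hseg : ∀ (g : ℕ → ℂ) (x : ℕ), ∑ k ∈ Icc 1 x, (if k % P = l0 % P then Φ * (c0 *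
      χ (k : ZMod (p ^ ν))) else 0) * g k = Φ * c0 * ∑ j ∈ range ((x + P - l0) / P),
      χ ((l0 + P * j : ℕ) : ZMod (p ^ ν)) * g (l0 + P * j) := by
    intro g x
    rw [← class_sum P l0 hl1 hlP (fun k => χ (k : ZMod (p ^ ν)) * g k) x, mul_sum, sum_filter]
    refine sum_congr rfl fun k _ => ?_
    rw [hmod]
    split_ifs
    · ring
    · simp
  -- the class sums are bounded
  have hJ : ∀ J : ℕ, ‖∑ j ∈ range J, χ ((l0 + P * j : ℕ) : ZMod (p ^ ν))‖ ≤ T := by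
    intro J
    refine le_trans (le_of_eq ?_) (hT J)
    congr 1
    refine sum_congr rfl fun j _ => ?_
    congr 1
    rw [hP]
    push_cast
    ring
  have hT0 : 0 ≤ T := (norm_nonneg _).trans (hJ 0)
  have hB : ∀ x : ℕ, ‖∑ k ∈ Ioc N x, ∑ θ : DirichletCharacter ℂ (p ^ m),
      (starRingEnd ℂ) ((χ * DirichletCharacter.changeLevel (pow_dvd_pow p hmν'.le) θ)
        (l0 : ZMod (p ^ ν))) * (χ * DirichletCharacter.changeLevel (pow_dvd_pow p hmν'.le) θ)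
        (k : ZMod (p ^ ν))‖ ≤ (P.totient : ℝ) * (2 * T) := by
    intro x
    simp_rw [horth]
    rcases le_or_gt x N with hx | hx
    · rw [Ioc_eq_empty_of_le hx, sum_empty, norm_zero]
      positivity
    · have e0 : ∀ y : ℕ, ∑ k ∈ Icc 1 y, (if k % P = l0 % P then Φ * (c0 *
          χ (k : ZMod (p ^ ν))) else 0) = Φ * c0 * ∑ j ∈ range ((y + P - l0) / P),
          χ ((l0 + P * j : ℕ) : ZMod (p ^ ν)) := by
        intro y
        have := hseg (fun _ => 1) y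
        simpa using this
      have e1 : ∑ k ∈ Ioc N x, (if k % P = l0 % P then Φ * (c0 * χ (k : ZMod (p ^ ν))) else 0) =
          ∑ k ∈ Icc 1 x, (if k % P = l0 % P then Φ * (c0 * χ (k : ZMod (p ^ ν))) else 0) -
          ∑ k ∈ Icc 1 N, (if k % P = l0 % P then Φ * (c0 * χ (k : ZMod (p ^ ν))) else 0) := by
        have hI : ∀ y : ℕ, Icc 1 y = Ioc 0 y := by
          intro y; ext z; simp only [mem_Icc, mem_Ioc]; omega
        rw [hI, hI, ← sum_Ioc_consecutive _ (Nat.zero_le N) hx.le]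
        ring
      rw [e1, e0, e0, ← mul_sub, norm_mul, norm_mul]
      have hΦn : ‖Φ‖ = (P.totient : ℝ) := by rw [hΦ, Complex.norm_natCast]
      rw [hΦn]
      have h1 := norm_sub_le (∑ j ∈ range ((x + P - l0) / P), χ ((l0 + P * j : ℕ) : ZMod (p ^ ν)))
        (∑ j ∈ range ((N + P - l0) / P), χ ((l0 + P * j : ℕ) : ZMod (p ^ ν)))
      have h2 := hJ ((x + P - l0) / P)
      have h3 := hJ ((N + P - l0) / P)
      calc (P.totient : ℝ) * ‖c0‖ * _ ≤ (P.totient : ℝ) * 1 * (T + T) := by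
            gcongr
            linarith
        _ = _ := by ring
  have hne : ∀ θ ∈ (univ : Finset (DirichletCharacter ℂ (p ^ m))),
      χ * DirichletCharacter.changeLevel (pow_dvd_pow p hmν'.le) θ ≠ 1 := by
    intro θ _ h
    have h1 := prim_mul hp hmν' hχ θ
    rw [h, DirichletCharacter.isPrimitive_def, DirichletCharacter.conductor_one] at h1
    have h2 : 1 < p ^ ν := Nat.one_lt_pow (by omega) hp.one_lt
    omega
  have hN1 : 1 ≤ N := by omega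
  have key := avg (univ : Finset (DirichletCharacter ℂ (p ^ m)))
    (fun θ => χ * DirichletCharacter.changeLevel (pow_dvd_pow p hmν'.le) θ)
    (fun θ => (starRingEnd ℂ) ((χ * DirichletCharacter.changeLevel (pow_dvd_pow p hmν'.le) θ)
        (l0 : ZMod (p ^ ν)))) hne hN1 (s := s) (by rw [hsre]; norm_num) hB
  simp_rw [horth] at key
  rw [hseg (fun n => (n : ℂ) ^ (-s)) N] at key
  have hNP : (N + P - l0) / P = J1 + 1 := by
    have : N + P - l0 = P * (J1 + 1) := by rw [hN]; ring_nf; omega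
    rw [this, Nat.mul_div_cancel_left _ hP0]
  rw [hNP, sum_range_succ'] at key
  -- the main term
  have hc1 : c0 * χ (l0 : ZMod (p ^ ν)) = 1 := by
    have hu : IsUnit (l0 : ZMod (p ^ ν)) := by
      rw [ZMod.isUnit_iff_coprime, Nat.coprime_pow_right_iff (by omega), Nat.coprime_comm,
        hp.coprime_iff_not_dvd]
      exact hpl
    have h1 : ‖χ (l0 : ZMod (p ^ ν))‖ = 1 := by
      obtain ⟨u, hu⟩ := hu
      rw [← hu]
      exact DirichletCharacter.unit_norm_eq_one χ u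
    rw [hc0, mul_comm, Complex.mul_conj', h1]
    norm_num
  have hmain : Φ * c0 * (χ ((l0 + P * 0 : ℕ) : ZMod (p ^ ν)) * ((l0 + P * 0 : ℕ) : ℂ) ^ (-s)) =
      Φ * (l0 : ℂ) ^ (-s) := by
    rw [mul_zero, add_zero]
    calc _ = Φ * (c0 * χ (l0 : ZMod (p ^ ν))) * (l0 : ℂ) ^ (-s) := by ring
      _ = _ := by rw [hc1, mul_one]
  rw [mul_add, hmain] at key
  -- the other terms
  have hrest : ‖Φ * c0 * ∑ j ∈ range J1, χ ((l0 + P * (j + 1) : ℕ) : ZMod (p ^ ν)) *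
      ((l0 + P * (j + 1) : ℕ) : ℂ) ^ (-s)‖ ≤
      (P.totient : ℝ) * (2 * Real.sqrt J1 * ((p : ℝ) ^ m) ^ (-(1 / 2) : ℝ)) := by
    rw [norm_mul, norm_mul]
    have hΦn : ‖Φ‖ = (P.totient : ℝ) := by rw [hΦ, Complex.norm_natCast]
    rw [hΦn]
    have h1 : ‖∑ j ∈ range J1, χ ((l0 + P * (j + 1) : ℕ) : ZMod (p ^ ν)) *
        ((l0 + P * (j + 1) : ℕ) : ℂ) ^ (-s)‖ ≤ 2 * Real.sqrt J1 * ((p : ℝ) ^ m) ^ (-(1 / 2) : ℝ) := by
      calc _ ≤ ∑ j ∈ range J1, ‖χ ((l0 + P * (j + 1) : ℕ) : ZMod (p ^ ν)) *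
            ((l0 + P * (j + 1) : ℕ) : ℂ) ^ (-s)‖ := norm_sum_le _ _
        _ ≤ ∑ j ∈ range J1, ((p : ℝ) ^ m) ^ (-(1 / 2) : ℝ) * (((j + 1 : ℕ) : ℝ)) ^ (-(1 / 2) : ℝ) := by
            refine sum_le_sum fun j _ => ?_
            rw [norm_mul, Complex.norm_natCast_cpow_of_pos (by omega), Complex.neg_re, hsre]
            have g1 : (((p : ℝ) ^ m)) ^ (-(1 / 2) : ℝ) * (((j + 1 : ℕ) : ℝ)) ^ (-(1 / 2) : ℝ) =
                ((P * (j + 1) : ℕ) : ℝ) ^ (-(1 / 2) : ℝ) := by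
              rw [← Real.mul_rpow (by positivity) (by positivity), hP]
              push_cast
              rfl
            rw [g1]
            have g2 : ((l0 + P * (j + 1) : ℕ) : ℝ) ^ (-(1 / 2) : ℝ) ≤
                ((P * (j + 1) : ℕ) : ℝ) ^ (-(1 / 2) : ℝ) := by
              refine Real.rpow_le_rpow_of_nonpos ?_ ?_ (by norm_num)
              · exact_mod_cast Nat.mul_pos hP0 (by omega)
              · exact_mod_cast (by omega : P * (j + 1) ≤ l0 + P * (j + 1))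
            calc _ ≤ 1 * ((l0 + P * (j + 1) : ℕ) : ℝ) ^ (-(1 / 2) : ℝ) := by
                  gcongr
                  exact χ.norm_le_one _
              _ ≤ _ := by rw [one_mul]; exact g2
        _ = ((p : ℝ) ^ m) ^ (-(1 / 2) : ℝ) * ∑ j ∈ Icc 1 J1, (j : ℝ) ^ (-(1 / 2) : ℝ) := by
            rw [← mul_sum]
            congr 1
            rw [range_eq_Ico, sum_Ico_add' (fun j : ℕ => (j : ℝ) ^ (-(1 / 2) : ℝ)) 0 J1 1]
            refine sum_congr ?_ fun _ _ => rfl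
            ext z; simp only [mem_Ico, mem_Icc]; omega
        _ ≤ ((p : ℝ) ^ m) ^ (-(1 / 2) : ℝ) * (2 * Real.sqrt J1) := by
            gcongr
            exact sum_inv_sqrt J1
        _ = _ := by ring
    calc (P.totient : ℝ) * ‖c0‖ * _ ≤ (P.totient : ℝ) * 1 *
          (2 * Real.sqrt J1 * ((p : ℝ) ^ m) ^ (-(1 / 2) : ℝ)) := by gcongr
      _ = _ := by ring
  have hsn : ‖s‖ ≤ 1 + |t| := by
    rw [hs]
    refine (norm_add_le _ _).trans ?_
    rw [norm_mul, Complex.norm_I, mul_one, Complex.norm_real, Real.norm_eq_abs]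
    have : ‖(1 / 2 : ℂ)‖ ≤ 1 := by rw [norm_div]; norm_num
    linarith
  -- assembly
  have htri : ∀ X Y Z : ℂ, ‖X - Z‖ ≤ ‖X - (Y + Z)‖ + ‖Y‖ := by
    intro X Y Z
    have : X - Z = (X - (Y + Z)) + Y := by ring
    rw [this]
    exact norm_add_le _ _
  refine (htri _ (Φ * c0 * ∑ j ∈ range J1, χ ((l0 + P * (j + 1) : ℕ) : ZMod (p ^ ν)) *
      ((l0 + P * (j + 1) : ℕ) : ℂ) ^ (-s)) _).trans ?_
  have hfin : ‖s‖ * ((P.totient : ℝ) * (2 * T) * ((N : ℝ) ^ (-s.re) / s.re)) ≤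
      (P.totient : ℝ) * ((1 + |t|) * (2 * T) * (2 * (N : ℝ) ^ (-(1 / 2) : ℝ))) := by
    rw [hsre]
    calc ‖s‖ * ((P.totient : ℝ) * (2 * T) * ((N : ℝ) ^ (-(1 / 2) : ℝ) / (1 / 2)))
        ≤ (1 + |t|) * ((P.totient : ℝ) * (2 * T) * ((N : ℝ) ^ (-(1 / 2) : ℝ) / (1 / 2))) := by gcongr
      _ = _ := by ring
  calc _ ≤ (P.totient : ℝ) * ((1 + |t|) * (2 * T) * (2 * (N : ℝ) ^ (-(1 / 2) : ℝ))) +
        (P.totient : ℝ) * (2 * Real.sqrt J1 * ((p : ℝ) ^ m) ^ (-(1 / 2) : ℝ)) :=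
        add_le_add (key.trans hfin) hrest
    _ = _ := by ring

end Pool.Agent.Y766.R8
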