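import Pool.Agent.Y766.R8.PA
import Pool.Agent.Y766.R7.ZH

/-!
Large values of `L(1/2+it, χθ)` in cosets of at least `q^(1/4+δ)` characters.
-/

set_option autoImplicit false

namespace Pool.Agent.Y766.R8

open Finset
open Pool.Agent.Y766.R7 (HH final7)

/-- the values -/
noncomputable def LV {p ν m : ℕ} [Fact p.Prime] (hmν : m < ν) (χ : DirichletCharacter ℂ (p ^ ν)) (t : ℝ)
    (θ : DirichletCharacter ℂ (p ^ m)) : ℝ :=
  ‖(χ * DirichletCharacter.changeLevel (pow_dvd_pow p hmν.le) θ).LFunction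
    (1 / 2 + (t : ℂ) * Complex.I)‖

/-- lower bound for the first moment of the absolute values -/
theorem fm_lower (hinc : S_INC) (hl0 : S_L0) {δ η : ℝ} (hη : 0 < η) (hηδ : 4 * η ≤ δ)
    (hη1 : η ≤ 1 / 100) : ∃ (ν₀ : ℕ) (C : ℝ), 1 ≤ C ∧ ∀ (p : ℕ) [Fact p.Prime], p ≠ 2 →
    ∀ (ν m : ℕ) (hmν : m < ν), ν₀ ≤ ν → 2 * m ≤ ν → ((p : ℝ) ^ ν) ^ (1 / 4 + δ) ≤ (p : ℝ) ^ m →
    C ≤ (p : ℝ) ^ ν →
    ∀ χ : DirichletCharacter ℂ (p ^ ν), χ.IsPrimitive → ∀ t : ℝ, 1 + |t| ≤ ((p : ℝ) ^ ν) ^ η →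
    (p : ℝ) ^ m * ((p : ℝ) ^ ν) ^ (-η) ≤ ∑ θ : DirichletCharacter ℂ (p ^ m), LV hmν χ t θ := by
  obtain ⟨C1, h1⟩ := hl0 η hη
  -- constants
  obtain ⟨K, hK⟩ : ∃ K : ℝ, K = 8 * (2 + 80 * (1 + 1 / η)) := ⟨_, rfl⟩
  have hK1 : 8 ≤ K := by
    rw [hK]
    have : 0 < 1 / η := by positivity
    linarith
  refine ⟨⌈1 / η⌉₊ + 2, max C1 1 + K ^ (2 / η) + 2 ^ (100 : ℝ) + 2 ^ (4 / η), ?_, ?_⟩
  · have e1 : (1 : ℝ) ≤ max C1 1 := le_max_right _ _
    have e2 : 0 ≤ K ^ (2 / η) := by positivity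
    have e3 : (0 : ℝ) ≤ 2 ^ (100 : ℝ) := by positivity
    have e4 : (0 : ℝ) ≤ 2 ^ (4 / η) := by positivity
    linarith
  intro p _ hp2 ν m hmν hν h2m hpm hCq χ hχ t ht
  have hp : p.Prime := Fact.out
  haveI : NeZero (p ^ ν) := ⟨pow_ne_zero _ hp.ne_zero⟩
  haveI : NeZero (p ^ m) := ⟨pow_ne_zero _ hp.ne_zero⟩
  have hp1 : (1 : ℝ) ≤ p := by exact_mod_cast hp.one_le
  have hp0 : (0 : ℝ) < p := by linarith
  have hp2' : (2 : ℝ) ≤ p := by exact_mod_cast hp.two_le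
  obtain ⟨q, hqd⟩ : ∃ q : ℝ, q = (p : ℝ) ^ ν := ⟨_, rfl⟩
  rw [← hqd] at hpm hCq ht ⊢
  have e1 : (1 : ℝ) ≤ max C1 1 := le_max_right _ _
  have e2 : 0 ≤ K ^ (2 / η) := by positivity
  have e3 : (0 : ℝ) ≤ 2 ^ (100 : ℝ) := by positivity
  have e4 : (0 : ℝ) ≤ 2 ^ (4 / η) := by positivity
  have hq1 : 1 ≤ q := by linarith
  have hq0 : 0 < q := by linarith
  have hqC1 : C1 ≤ q := by linarith [le_max_left C1 1]
  have hqK : K ≤ q ^ (η / 2) := by
    have : K ^ (2 / η) ≤ q := by linarith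
    calc K = (K ^ (2 / η)) ^ (η / 2) := by
          rw [← Real.rpow_mul (by linarith)]
          have : 2 / η * (η / 2) = 1 := by field_simp
          rw [this, Real.rpow_one]
      _ ≤ q ^ (η / 2) := Real.rpow_le_rpow e2 this (by positivity)
  -- m is positive
  have hm1 : 1 ≤ m := by
    by_contra h
    have h0 : m = 0 := by omega
    rw [h0, pow_zero] at hpm
    have h5 : (1 : ℝ) < q ^ (1 / 4 + δ) := by
      refine Real.one_lt_rpow ?_ (by linarith)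
      have : (1 : ℝ) < 2 ^ (100 : ℝ) := Real.one_lt_rpow (by norm_num) (by norm_num)
      linarith
    linarith
  obtain ⟨a, ha1, ha2, hfm⟩ := first_moment hinc hp2 hm1 h2m hmν χ hχ
  have hpmq : (p : ℝ) ^ m ≤ q := by
    rw [hqd]
    exact pow_le_pow_right₀ hp1 (by omega)
  have ha0 : a ≠ 0 := fun h => ha1 (by rw [h]; exact dvd_zero _)
  have haq : |(a : ℝ)| ≤ q := by
    have h5 : (2 : ℝ) * |(a : ℝ)| ≤ (p : ℝ) ^ m := by exact_mod_cast ha2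
    have := abs_nonneg (a : ℝ)
    linarith
  obtain ⟨l0, hl1, hlq, hpl, hla⟩ := h1 p hp q hqC1 a ha0 haq
  have hl1' : (1 : ℝ) ≤ l0 := by exact_mod_cast hl1
  have hq14 : q ^ (1 / 4 : ℝ) ≤ (p : ℝ) ^ m :=
    (Real.rpow_le_rpow_of_exponent_le hq1 (by linarith)).trans hpm
  have hqbig : (2 : ℝ) ^ (100 : ℝ) ≤ q := by linarith
  have hq24 : (2 : ℝ) ≤ q ^ (1 / 100 : ℝ) := by
    calc (2 : ℝ) = ((2 : ℝ) ^ (100 : ℝ)) ^ (1 / 100 : ℝ) := by
          rw [← Real.rpow_mul (by norm_num)]; norm_num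
      _ ≤ _ := Real.rpow_le_rpow (by positivity) hqbig (by norm_num)
  have hlP : l0 < p ^ m := by
    have h5 : (l0 : ℝ) < (p : ℝ) ^ m := by
      calc (l0 : ℝ) ≤ q ^ η := hlq
        _ ≤ q ^ (1 / 100 : ℝ) := Real.rpow_le_rpow_of_exponent_le hq1 hη1
        _ < q ^ (1 / 4 : ℝ) := by
            refine Real.rpow_lt_rpow_of_exponent_lt ?_ (by norm_num)
            have : (1 : ℝ) < 2 ^ (100 : ℝ) := Real.one_lt_rpow (by norm_num) (by norm_num)
            linarith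
        _ ≤ _ := hq14
    exact_mod_cast h5
  -- the length
  set X : ℝ := (p : ℝ) ^ m * q ^ (-4 * η) with hX
  have hpm0 : (0 : ℝ) < (p : ℝ) ^ m := by positivity
  have hX0 : 0 < X := by positivity
  have hX2 : 2 ≤ X := by
    calc (2 : ℝ) ≤ q ^ (1 / 100 : ℝ) := hq24
      _ ≤ q ^ (1 / 4 + (-4 * η)) := Real.rpow_le_rpow_of_exponent_le hq1 (by linarith)
      _ = q ^ (1 / 4 : ℝ) * q ^ (-4 * η) := Real.rpow_add hq0 _ _
      _ ≤ X := by rw [hX]; gcongr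
  set J1 : ℕ := ⌊X⌋₊ with hJ1
  have hJle : (J1 : ℝ) ≤ X := Nat.floor_le hX0.le
  have hJge : X / 2 ≤ J1 := by
    have := Nat.lt_floor_add_one X
    rw [← hJ1] at this
    linarith
  have hkey := hfm l0 hl1 hlP hpl hla J1 t
  set S : ℂ := ∑ θ : DirichletCharacter ℂ (p ^ m),
          (starRingEnd ℂ) ((χ * DirichletCharacter.changeLevel (pow_dvd_pow p hmν.le) θ)
            (l0 : ZMod (p ^ ν))) * (χ * DirichletCharacter.changeLevel (pow_dvd_pow p hmν.le)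
            θ).LFunction (1 / 2 + (t : ℂ) * Complex.I) with hS
  set φ : ℝ := ((p ^ m).totient : ℝ) with hφ
  have hφ0 : 0 ≤ φ := by positivity
  have hφ2 : (p : ℝ) ^ m / 2 ≤ φ := by
    rw [hφ, Nat.totient_prime_pow hp (by omega)]
    push_cast [Nat.cast_sub hp.one_le]
    have h5 : (p : ℝ) ^ m = (p : ℝ) ^ (m - 1) * p := by
      rw [← pow_succ]; congr 1; omega
    rw [h5]
    have : (0 : ℝ) < (p : ℝ) ^ (m - 1) := by positivity
    nlinarith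
  -- the error terms
  have herr1 : 2 * Real.sqrt J1 * ((p : ℝ) ^ m) ^ (-(1 / 2) : ℝ) ≤ 2 * q ^ (-2 * η) := by
    have g1 : Real.sqrt J1 ≤ ((p : ℝ) ^ m) ^ (1 / 2 : ℝ) * q ^ (-2 * η) := by
      rw [Real.sqrt_eq_rpow]
      calc (J1 : ℝ) ^ (1 / 2 : ℝ) ≤ X ^ (1 / 2 : ℝ) := Real.rpow_le_rpow (by positivity) hJle (by norm_num)
        _ = _ := by
            rw [hX, Real.mul_rpow hpm0.le (by positivity), ← Real.rpow_mul hq0.le]
            congr 2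
            ring
    calc 2 * Real.sqrt J1 * ((p : ℝ) ^ m) ^ (-(1 / 2) : ℝ)
        ≤ 2 * (((p : ℝ) ^ m) ^ (1 / 2 : ℝ) * q ^ (-2 * η)) * ((p : ℝ) ^ m) ^ (-(1 / 2) : ℝ) := by gcongr
      _ = 2 * q ^ (-2 * η) * (((p : ℝ) ^ m) ^ (1 / 2 : ℝ) * ((p : ℝ) ^ m) ^ (-(1 / 2) : ℝ)) := by ring
      _ = _ := by
          rw [← Real.rpow_add hpm0]
          norm_num
  have hN : (((l0 + p ^ m * J1 : ℕ) : ℝ)) ^ (-(1 / 2) : ℝ) ≤ 2 * ((p : ℝ) ^ m)⁻¹ * q ^ (2 * η) := by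
    have g1 : (p : ℝ) ^ m * (X / 2) ≤ ((l0 + p ^ m * J1 : ℕ) : ℝ) := by
      push_cast
      have := mul_le_mul_of_nonneg_left hJge hpm0.le
      linarith
    have g2 : (0 : ℝ) < (p : ℝ) ^ m * (X / 2) := by positivity
    calc _ ≤ ((p : ℝ) ^ m * (X / 2)) ^ (-(1 / 2) : ℝ) :=
          Real.rpow_le_rpow_of_nonpos g2 g1 (by norm_num)
      _ = (((p : ℝ) ^ m) ^ (2 : ℝ) * (q ^ (-4 * η) * 2⁻¹)) ^ (-(1 / 2) : ℝ) := by
          congr 1
          rw [hX, Real.rpow_two]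
          ring
      _ = ((p : ℝ) ^ m)⁻¹ * (q ^ (2 * η) * (2 : ℝ) ^ (1 / 2 : ℝ)) := by
          rw [Real.mul_rpow (by positivity) (by positivity), Real.mul_rpow (by positivity)
            (by positivity), ← Real.rpow_mul hpm0.le, ← Real.rpow_mul hq0.le]
          have k1 : (2 : ℝ) * (-(1 / 2)) = -1 := by norm_num
          have k2 : -4 * η * (-(1 / 2)) = 2 * η := by ring
          rw [k1, k2, Real.rpow_neg_one]
          congr 2
          rw [← Real.rpow_neg_one, ← Real.rpow_mul (by norm_num)]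
          norm_num
      _ ≤ ((p : ℝ) ^ m)⁻¹ * (q ^ (2 * η) * 2) := by
          have k3 : (2 : ℝ) ^ (1 / 2 : ℝ) ≤ 2 := by
            calc (2 : ℝ) ^ (1 / 2 : ℝ) ≤ 2 ^ (1 : ℝ) :=
                  Real.rpow_le_rpow_of_exponent_le (by norm_num) (by norm_num)
              _ = 2 := Real.rpow_one _
          gcongr
      _ = _ := by ring
  have hlog : 1 + (ν : ℝ) * Real.log p ≤ (1 + 1 / η) * q ^ η := by
    have g1 : (ν : ℝ) * Real.log p = Real.log q := by rw [hqd, Real.log_pow]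
    rw [g1]
    have g2 := Real.log_le_rpow_div hq0.le hη
    have g3 : 1 ≤ q ^ η := Real.one_le_rpow hq1 hη.le
    have g4 : q ^ η / η = 1 / η * q ^ η := by ring
    linarith
  have hpc : (p : ℝ) ^ ((ν + 1) / 2) ≤ q ^ (1 / 2 + η) := by
    have g1 : (((ν + 1) / 2 : ℕ) : ℝ) ≤ ν * (1 / 2 + η) := by
      have k1 : (((ν + 1) / 2 : ℕ) : ℝ) ≤ ((ν : ℝ) + 1) / 2 := by
        have := @Nat.cast_div_le ℝ _ _ _ (ν + 1) 2
        push_cast at this
        exact this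
      have k2 : 1 / η ≤ ν := by
        have : ((⌈1 / η⌉₊ + 2 : ℕ) : ℝ) ≤ ν := by exact_mod_cast hν
        push_cast at this
        have := Nat.le_ceil (1 / η)
        linarith
      have k3 : 1 ≤ ν * η := by
        rw [div_le_iff₀ hη] at k2
        exact k2
      linarith
    calc (p : ℝ) ^ ((ν + 1) / 2) = (p : ℝ) ^ ((((ν + 1) / 2 : ℕ) : ℝ)) := (Real.rpow_natCast _ _).symm
      _ ≤ (p : ℝ) ^ ((ν : ℝ) * (1 / 2 + η)) := Real.rpow_le_rpow_of_exponent_le hp1 g1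
      _ = _ := by rw [Real.rpow_mul hp0.le, Real.rpow_natCast, hqd]
  have hpinv : ((p : ℝ) ^ m)⁻¹ ≤ q ^ (-(1 / 4 + δ)) := by
    rw [Real.rpow_neg hq0.le]
    exact inv_anti₀ (by positivity) hpm
  have herr2 : (1 + |t|) * (2 * (10 * l0 * (p : ℝ) ^ ((ν + 1) / 2) * (1 + ν * Real.log p) /
      (p : ℝ) ^ m)) * (2 * (((l0 + p ^ m * J1 : ℕ) : ℝ)) ^ (-(1 / 2) : ℝ)) ≤
      80 * (1 + 1 / η) * q ^ (-2 * η) := by
    have ht0 := abs_nonneg t
    have hν0 : (0 : ℝ) ≤ 1 + ν * Real.log p := by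
      have := Real.log_nonneg hp1
      positivity
    calc _ ≤ q ^ η * (2 * (10 * q ^ η * q ^ (1 / 2 + η) * ((1 + 1 / η) * q ^ η) *
          q ^ (-(1 / 4 + δ)))) * (2 * (2 * q ^ (-(1 / 4 + δ)) * q ^ (2 * η))) := by
          rw [div_eq_mul_inv]
          gcongr
          exact hN.trans (by gcongr)
      _ = 80 * (1 + 1 / η) * (q ^ η * q ^ η * q ^ (1 / 2 + η) * q ^ η * q ^ (-(1 / 4 + δ)) *
          q ^ (-(1 / 4 + δ)) * q ^ (2 * η)) := by ring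
      _ = 80 * (1 + 1 / η) * q ^ (6 * η - 2 * δ) := by
          simp only [← Real.rpow_add hq0]
          congr 2
          ring
      _ ≤ _ := by
          refine mul_le_mul_of_nonneg_left ?_ (by positivity)
          exact Real.rpow_le_rpow_of_exponent_le hq1 (by linarith)
  -- the main term
  have hmain : φ * q ^ (-(η / 2)) ≤ ‖((p ^ m).totient : ℂ) * (l0 : ℂ) ^ (-(1 / 2 + (t : ℂ) * Complex.I))‖ := by
    rw [norm_mul, Complex.norm_natCast, Complex.norm_natCast_cpow_of_pos (by omega)]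
    have g1 : (-(1 / 2 + (t : ℂ) * Complex.I)).re = -(1 / 2) := by simp
    rw [g1]
    refine mul_le_mul_of_nonneg_left ?_ hφ0
    calc q ^ (-(η / 2)) = (q ^ η) ^ (-(1 / 2) : ℝ) := by
          rw [← Real.rpow_mul hq0.le]; congr 1; ring
      _ ≤ (l0 : ℝ) ^ (-(1 / 2) : ℝ) :=
          Real.rpow_le_rpow_of_nonpos (by linarith) hlq (by norm_num)
  have hSlow : φ * (q ^ (-(η / 2)) - (2 + 80 * (1 + 1 / η)) * q ^ (-2 * η)) ≤ ‖S‖ := by
    have g1 : ‖((p ^ m).totient : ℂ) * (l0 : ℂ) ^ (-(1 / 2 + (t : ℂ) * Complex.I))‖ ≤ ‖S‖ +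
        ‖S - ((p ^ m).totient : ℂ) * (l0 : ℂ) ^ (-(1 / 2 + (t : ℂ) * Complex.I))‖ := by
      have := norm_sub_norm_le (((p ^ m).totient : ℂ) * (l0 : ℂ) ^ (-(1 / 2 + (t : ℂ) * Complex.I))) S
      rw [norm_sub_rev] at this
      linarith
    have g2 := mul_le_mul_of_nonneg_left (add_le_add herr1 herr2) hφ0
    have g3 : φ * (q ^ (-(η / 2)) - (2 + 80 * (1 + 1 / η)) * q ^ (-2 * η)) =
      φ * q ^ (-(η / 2)) - φ * (2 * q ^ (-2 * η) + 80 * (1 + 1 / η) * q ^ (-2 * η)) := by ring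
    linarith
  have hSup : ‖S‖ ≤ ∑ θ : DirichletCharacter ℂ (p ^ m), LV hmν χ t θ := by
    rw [hS]
    refine (norm_sum_le _ _).trans (sum_le_sum fun θ _ => ?_)
    rw [norm_mul, RCLike.norm_conj]
    unfold LV
    calc _ ≤ 1 * ‖(χ * DirichletCharacter.changeLevel (pow_dvd_pow p hmν.le)
            θ).LFunction (1 / 2 + (t : ℂ) * Complex.I)‖ := by
          gcongr
          exact DirichletCharacter.norm_le_one _ _
      _ = _ := one_mul _
  refine le_trans ?_ (hSlow.trans hSup)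
  -- numerical comparison
  have c1 : (2 + 80 * (1 + 1 / η)) * q ^ (-2 * η) ≤ q ^ (-(η / 2)) / 8 := by
    have k1 : (2 + 80 * (1 + 1 / η)) = K / 8 := by rw [hK]; ring
    rw [k1]
    have k2 : K * q ^ (-2 * η) ≤ q ^ (-(η / 2)) := by
      calc K * q ^ (-2 * η) ≤ q ^ (η / 2) * q ^ (-2 * η) := by gcongr
        _ = q ^ (η / 2 + (-2 * η)) := (Real.rpow_add hq0 _ _).symm
        _ ≤ _ := Real.rpow_le_rpow_of_exponent_le hq1 (by linarith)
    linarith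
  have c2 : 4 * q ^ (-η) ≤ q ^ (-(η / 2)) := by
    have k1 : (4 : ℝ) ≤ q ^ (η / 2) := by linarith
    calc 4 * q ^ (-η) ≤ q ^ (η / 2) * q ^ (-η) := by gcongr
      _ = _ := by rw [← Real.rpow_add hq0]; congr 1; ring
  have c3 : 0 < q ^ (-(η / 2)) := by positivity
  calc (p : ℝ) ^ m * q ^ (-η) ≤ (p : ℝ) ^ m / 2 * (q ^ (-(η / 2)) * (7 / 8)) := by
        have : 0 ≤ (p : ℝ) ^ m := hpm0.le
        nlinarith
    _ ≤ φ * (q ^ (-(η / 2)) * (7 / 8)) := by gcongr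
    _ ≤ _ := by
        refine mul_le_mul_of_nonneg_left ?_ hφ0
        linarith

end Pool.Agent.Y766.R8
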