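import Pool.Agent.Y766.R8.PB

/-!
Large values of `L(1/2+it, χθ)` in cosets of at least `q^(1/4+δ)` characters: the count.
-/

set_option autoImplicit false

namespace Pool.Agent.Y766.R8

open Finset
open Pool.Agent.Y766.R7 (HH final7)

/-- Cauchy-Schwarz: many large values -/
lemma many_large {ι : Type} [Fintype ι] (f : ι → ℝ) (hf : ∀ i, 0 ≤ f i) {a b V S : ℝ} (ha : 0 ≤ a)
    (hV : 0 ≤ V) (hS : 0 < S) (hcard : (Fintype.card ι : ℝ) * V ≤ a) (h1 : 2 * a ≤ ∑ i, f i)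
    (h2 : ∑ i, f i ^ 2 ≤ S) (hb : b * S ≤ a ^ 2) : b ≤ (Nat.card {i // V ≤ f i} : ℝ) := by
  classical
  have e0 : (Nat.card {i // V ≤ f i} : ℝ) = ((univ.filter (fun i => V ≤ f i)).card : ℝ) := by
    rw [Nat.card_eq_fintype_card, Fintype.card_subtype]
  rw [e0]
  set G := univ.filter (fun i => V ≤ f i) with hG
  have h3 : ∑ i, f i = ∑ i ∈ G, f i + ∑ i ∈ univ.filter (fun i => ¬ V ≤ f i), f i := by
    rw [hG, sum_filter_add_sum_filter_not]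
  have h4 : ∑ i ∈ univ.filter (fun i => ¬ V ≤ f i), f i ≤ a := by
    calc _ ≤ ∑ i ∈ univ.filter (fun i => ¬ V ≤ f i), V := by
          refine sum_le_sum fun i hi => ?_
          rw [mem_filter] at hi
          exact (not_le.1 hi.2).le
      _ = ((univ.filter (fun i => ¬ V ≤ f i)).card : ℝ) * V := by rw [sum_const, nsmul_eq_mul]
      _ ≤ (Fintype.card ι : ℝ) * V := by
          gcongr
          exact card_le_univ _
      _ ≤ a := hcard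
  have h5 : a ≤ ∑ i ∈ G, f i := by linarith
  have h6 : (∑ i ∈ G, f i) ^ 2 ≤ G.card * ∑ i ∈ G, f i ^ 2 := sq_sum_le_card_mul_sum_sq
  have h7 : ∑ i ∈ G, f i ^ 2 ≤ S :=
    (sum_le_sum_of_subset_of_nonneg (subset_univ _) fun _ _ _ => by positivity).trans h2
  have h8 : b * S ≤ G.card * S := by
    calc b * S ≤ a ^ 2 := hb
      _ ≤ (∑ i ∈ G, f i) ^ 2 := pow_le_pow_left₀ ha h5 2
      _ ≤ G.card * ∑ i ∈ G, f i ^ 2 := h6
      _ ≤ G.card * S := by gcongr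
  exact le_of_mul_le_mul_right h8 hS

/-- the count for `2m ≤ ν` -/
theorem count_small (hinc : S_INC) (hl0 : S_L0) (H : HH) {δ ε : ℝ} (hδ : 0 < δ) (hε : 0 < ε) :
    ∃ (ν₀ A : ℕ) (C : ℝ), 1 ≤ C ∧ ∀ (p : ℕ) [Fact p.Prime], 7 ≤ p →
    ∀ (ν m : ℕ) (hmν : m < ν), ν₀ ≤ ν → 2 * m ≤ ν → ((p : ℝ) ^ ν) ^ (1 / 4 + δ) ≤ (p : ℝ) ^ m →
    ∀ χ : DirichletCharacter ℂ (p ^ ν), χ.IsPrimitive → ∀ t : ℝ,
    C * (1 + |t|) ^ A ≤ (p : ℝ) ^ ν →
    ((p : ℝ) ^ ν) ^ (-ε) * ((p : ℝ) ^ m) ^ 2 / ((p : ℝ) ^ m + ((p : ℝ) ^ ν) ^ (19 / 58 : ℝ)) ≤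
      (Nat.card {θ : DirichletCharacter ℂ (p ^ m) // ((p : ℝ) ^ ν) ^ (-ε) ≤ LV hmν χ t θ} : ℝ) := by
  obtain ⟨η, hη⟩ : ∃ η : ℝ, η = min (min δ ε) 1 / 100 := ⟨_, rfl⟩
  have hη0 : 0 < η := by rw [hη]; positivity
  have hηδ : 4 * η ≤ δ := by
    have h1 : min (min δ ε) 1 ≤ δ := (min_le_left _ _).trans (min_le_left _ _)
    rw [hη]; linarith
  have hηε : 100 * η ≤ ε := by
    have h1 : min (min δ ε) 1 ≤ ε := (min_le_left _ _).trans (min_le_right _ _)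
    rw [hη]; linarith
  have hη1 : η ≤ 1 / 100 := by
    have h1 : min (min δ ε) 1 ≤ 1 := min_le_right _ _
    rw [hη]; linarith
  obtain ⟨ν1, C1, hC1, h1⟩ := fm_lower hinc hl0 hη0 hηδ hη1
  obtain ⟨C2, A2, hC2, h2⟩ := final7 H hη0
  -- the exponents
  obtain ⟨A, hA⟩ : ∃ A : ℕ, A = ⌈((A2 : ℝ) + 1) / η⌉₊ := ⟨_, rfl⟩
  have hA1 : ((A2 : ℝ) + 1) / η ≤ A := by rw [hA]; exact Nat.le_ceil _
  refine ⟨ν1 + ⌈51 / η⌉₊ + 1, A, C1 + 4 ^ (1 / η) + (4 * C2) ^ (1 / η), ?_, ?_⟩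
  · have : (0 : ℝ) ≤ 4 ^ (1 / η) := by positivity
    have : (0 : ℝ) ≤ (4 * C2) ^ (1 / η) := by positivity
    linarith
  intro p _ hp7 ν m hmν hν h2m hpm χ hχ t ht
  have hp : p.Prime := Fact.out
  haveI : NeZero (p ^ ν) := ⟨pow_ne_zero _ hp.ne_zero⟩
  haveI : NeZero (p ^ m) := ⟨pow_ne_zero _ hp.ne_zero⟩
  have hp1 : (1 : ℝ) ≤ p := by exact_mod_cast hp.one_le
  have hp0 : (0 : ℝ) < p := by linarith
  have hm2 := h2 p hp7 ν m hmν χ hχ t
  have ht0 := abs_nonneg t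
  have c1 : (0 : ℝ) ≤ 4 ^ (1 / η) := by positivity
  have c2 : (0 : ℝ) ≤ (4 * C2) ^ (1 / η) := by positivity
  have hCC : C1 + 4 ^ (1 / η) + (4 * C2) ^ (1 / η) ≤ (p : ℝ) ^ ν := by
    refine le_trans ?_ ht
    have : (1 : ℝ) ≤ (1 + |t|) ^ A := one_le_pow₀ (by linarith)
    have h0 : 0 ≤ C1 + 4 ^ (1 / η) + (4 * C2) ^ (1 / η) := by linarith
    exact le_mul_of_one_le_right h0 this
  have htq : (1 + |t|) ^ A ≤ (p : ℝ) ^ ν := by
    refine le_trans ?_ ht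
    have h0 : 1 ≤ C1 + 4 ^ (1 / η) + (4 * C2) ^ (1 / η) := by linarith
    exact le_mul_of_one_le_left (by positivity) h0
  have h1' := h1 p (by omega) ν m hmν (by omega) h2m hpm (by linarith) χ hχ t
  obtain ⟨q, hqd⟩ : ∃ q : ℝ, q = (p : ℝ) ^ ν := ⟨_, rfl⟩
  rw [← hqd] at hpm ht hm2 hCC htq h1' ⊢
  have hq1 : 1 ≤ q := by linarith
  have hq0 : 0 < q := by linarith
  have hroot : ∀ x : ℝ, 0 ≤ x → x ^ (1 / η) ≤ q → x ≤ q ^ η := by
    intro x hx h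
    calc x = (x ^ (1 / η)) ^ η := by
          rw [← Real.rpow_mul hx, one_div_mul_cancel hη0.ne', Real.rpow_one]
      _ ≤ q ^ η := Real.rpow_le_rpow (by positivity) h hη0.le
  have h4q : (4 : ℝ) ≤ q ^ η := hroot 4 (by norm_num) (by linarith)
  have hC2q : 4 * C2 ≤ q ^ η := hroot (4 * C2) (by positivity) (by linarith)
  have hp51 : (p : ℝ) ^ 51 ≤ q ^ η := by
    have k1 : (51 : ℝ) / η ≤ ν := by
      have k2 : ((ν1 + ⌈51 / η⌉₊ + 1 : ℕ) : ℝ) ≤ ν := by exact_mod_cast hν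
      push_cast at k2
      have k3 := Nat.le_ceil (51 / η)
      have k4 : (0 : ℝ) ≤ ν1 := Nat.cast_nonneg _
      linarith
    have k5 : (51 : ℝ) ≤ ν * η := by rwa [div_le_iff₀ hη0] at k1
    calc (p : ℝ) ^ 51 = (p : ℝ) ^ (51 : ℝ) := by
          rw [← Real.rpow_natCast]; norm_num
      _ ≤ (p : ℝ) ^ ((ν : ℝ) * η) := Real.rpow_le_rpow_of_exponent_le hp1 k5
      _ = q ^ η := by rw [Real.rpow_mul hp0.le, Real.rpow_natCast, hqd]
  have htA : (1 + |t|) ^ (A2 + 1) ≤ q ^ η := by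
    have k1 : ((A2 : ℝ) + 1) ≤ A * η := by rwa [div_le_iff₀ hη0] at hA1
    calc (1 + |t|) ^ (A2 + 1) = (1 + |t|) ^ (((A2 : ℝ) + 1)) := by
          rw [← Real.rpow_natCast]; push_cast; rfl
      _ ≤ (1 + |t|) ^ ((A : ℝ) * η) := Real.rpow_le_rpow_of_exponent_le (by linarith) k1
      _ = ((1 + |t|) ^ A) ^ η := by
          rw [Real.rpow_mul (by linarith), Real.rpow_natCast]
      _ ≤ q ^ η := Real.rpow_le_rpow (by positivity) htq hη0.le
  have ht1 : 1 + |t| ≤ q ^ η := by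
    refine le_trans ?_ htA
    calc 1 + |t| = (1 + |t|) ^ 1 := (pow_one _).symm
      _ ≤ _ := pow_le_pow_right₀ (by linarith) (by omega)
  have htA2 : (1 + |t|) ^ A2 ≤ q ^ η := by
    refine le_trans ?_ htA
    exact pow_le_pow_right₀ (by linarith) (by omega)
  have hfm := h1' ht1
  have hpm0 : (0 : ℝ) < (p : ℝ) ^ m := by positivity
  set W : ℝ := (p : ℝ) ^ m + q ^ (19 / 58 : ℝ) with hW
  have hW0 : 0 < W := by positivity
  refine many_large (LV hmν χ t) (fun θ => norm_nonneg _) (a := (p : ℝ) ^ m * q ^ (-η) / 2)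
    (V := q ^ (-ε)) (S := q ^ (4 * η) * W) (by positivity) (by positivity) (by positivity) ?_
    (by linarith) ?_ ?_
  · -- the trivial part
    have hcard : (Fintype.card (DirichletCharacter ℂ (p ^ m)) : ℝ) ≤ (p : ℝ) ^ m := by
      have e1 := DirichletCharacter.card_eq_totient_of_hasEnoughRootsOfUnity ℂ (p ^ m)
      rw [← Nat.card_eq_fintype_card, e1]
      exact_mod_cast Nat.totient_le (p ^ m)
    calc _ ≤ (p : ℝ) ^ m * q ^ (-ε) := by gcongr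
      _ ≤ (p : ℝ) ^ m * (q ^ (-η) / 2) := by
          refine mul_le_mul_of_nonneg_left ?_ hpm0.le
          have k1 : 2 * q ^ (-ε) ≤ q ^ (-η) := by
            calc 2 * q ^ (-ε) ≤ q ^ η * q ^ (-ε) := by gcongr; linarith
              _ = q ^ (η + -ε) := (Real.rpow_add hq0 _ _).symm
              _ ≤ q ^ (-η) := Real.rpow_le_rpow_of_exponent_le hq1 (by linarith)
          linarith
      _ = _ := by ring
  · -- the mean square
    unfold LV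
    refine hm2.trans ?_
    calc C2 * (p : ℝ) ^ 51 * (1 + |t|) ^ A2 * q ^ η * W
        ≤ q ^ η * q ^ η * q ^ η * q ^ η * W := by
          gcongr
          linarith
      _ = q ^ (4 * η) * W := by
          simp only [← Real.rpow_add hq0]
          congr 2
          ring
  · have k1 : q ^ (-ε) * (q ^ (4 * η)) ≤ (q ^ (-η) / 2) ^ 2 := by
      have k2 : 4 * (q ^ (-ε) * q ^ (4 * η)) ≤ (q ^ (-η)) ^ 2 := by
        calc 4 * (q ^ (-ε) * q ^ (4 * η)) ≤ q ^ η * (q ^ (-ε) * q ^ (4 * η)) := by gcongr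
          _ = q ^ (η + (-ε + 4 * η)) := by rw [← Real.rpow_add hq0, ← Real.rpow_add hq0]
          _ ≤ q ^ (-η * 2) := Real.rpow_le_rpow_of_exponent_le hq1 (by linarith)
          _ = (q ^ (-η)) ^ 2 := by
              rw [Real.rpow_mul hq0.le]; norm_num
      have k3 : (q ^ (-η) / 2) ^ 2 = (q ^ (-η)) ^ 2 / 4 := by ring
      rw [k3]; linarith
    calc q ^ (-ε) * ((p : ℝ) ^ m) ^ 2 / W * (q ^ (4 * η) * W) =
          (q ^ (-ε) * q ^ (4 * η)) * ((p : ℝ) ^ m) ^ 2 * (W / W) := by ring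
      _ = (q ^ (-ε) * q ^ (4 * η)) * ((p : ℝ) ^ m) ^ 2 := by rw [div_self hW0.ne', mul_one]
      _ ≤ (q ^ (-η) / 2) ^ 2 * ((p : ℝ) ^ m) ^ 2 := by gcongr
      _ = _ := by ring

end Pool.Agent.Y766.R8
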