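import Pool.Agent.Y766.R8.PC

/-!
Large values of `L(1/2+it, χθ)` in cosets of at least `q^(1/4+δ)` characters: all `m`.
-/

set_option autoImplicit false

namespace Pool.Agent.Y766.R8

open Finset
open Pool.Agent.Y766.R7 (HH final7)
open Pool.Agent.Y766.R3 (prim_mul)

/-- from small subgroups to large ones -/
lemma sub_avg {G K : Type} [Group G] [Fintype G] [Group K] [Fintype K] (e : K → G)
    (good : G → Prop) {c : ℝ}
    (h : ∀ g : G, c ≤ (Nat.card {k : K // good (g * e k)} : ℝ)) :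
    (Fintype.card G : ℝ) * c ≤ Fintype.card K * (Nat.card {g : G // good g} : ℝ) := by
  classical
  have e0 : ∀ g : G, (Nat.card {k : K // good (g * e k)} : ℝ) =
      ∑ k : K, if good (g * e k) then (1 : ℝ) else 0 := by
    intro g
    rw [Nat.card_eq_fintype_card, Fintype.card_subtype, sum_boole]
  have e1 : (Nat.card {g : G // good g} : ℝ) = ∑ g : G, if good g then (1 : ℝ) else 0 := by
    rw [Nat.card_eq_fintype_card, Fintype.card_subtype, sum_boole]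
  have h1 : (Fintype.card G : ℝ) * c ≤ ∑ g : G, ∑ k : K, if good (g * e k) then (1 : ℝ) else 0 := by
    calc (Fintype.card G : ℝ) * c = ∑ _g : G, c := by rw [sum_const, card_univ, nsmul_eq_mul]
      _ ≤ _ := sum_le_sum fun g _ => by rw [← e0]; exact h g
  refine h1.trans (le_of_eq ?_)
  rw [sum_comm, e1]
  have h2 : ∀ k : K, ∑ g : G, (if good (g * e k) then (1 : ℝ) else 0) =
      ∑ g : G, if good g then (1 : ℝ) else 0 := by
    intro k
    exact Fintype.sum_equiv (Equiv.mulRight (e k)) _ _ fun g => rfl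
  simp_rw [h2]
  rw [sum_const, card_univ, nsmul_eq_mul]

/-- the count for all `m` -/
theorem count_all (hinc : S_INC) (hl0 : S_L0) (H : HH) {δ ε : ℝ} (hδ : 0 < δ) (hε : 0 < ε) :
    ∃ (ν₀ A : ℕ) (C : ℝ), ∀ (p : ℕ) [Fact p.Prime], 7 ≤ p →
    ∀ (ν m : ℕ) (hmν : m < ν), ν₀ ≤ ν → ((p : ℝ) ^ ν) ^ (1 / 4 + δ) ≤ (p : ℝ) ^ m →
    ∀ χ : DirichletCharacter ℂ (p ^ ν), χ.IsPrimitive → ∀ t : ℝ,
    C * (1 + |t|) ^ A ≤ (p : ℝ) ^ ν →
    ((p : ℝ) ^ ν) ^ (-ε) * ((p : ℝ) ^ m) ^ 2 / ((p : ℝ) ^ m + ((p : ℝ) ^ ν) ^ (19 / 58 : ℝ)) ≤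
      (Nat.card {θ : DirichletCharacter ℂ (p ^ m) // ((p : ℝ) ^ ν) ^ (-ε) ≤ LV hmν χ t θ} : ℝ) := by
  obtain ⟨ν1, A1, C1, hC1, h1⟩ := count_small hinc hl0 H hδ hε
  obtain ⟨ν2, A2, C2, hC2, h2⟩ := count_small hinc hl0 H (δ := 1 / 8) (by norm_num)
    (ε := ε / 2) (by positivity)
  refine ⟨ν1 + ν2 + 10, A1 + A2, C1 + C2 + 4 ^ (2 / ε), ?_⟩
  intro p _ hp7 ν m hmν hν hpm χ hχ t ht
  have hp : p.Prime := Fact.out
  haveI : NeZero (p ^ ν) := ⟨pow_ne_zero _ hp.ne_zero⟩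
  haveI : NeZero (p ^ m) := ⟨pow_ne_zero _ hp.ne_zero⟩
  have hp1 : (1 : ℝ) ≤ p := by exact_mod_cast hp.one_le
  have hp0 : (0 : ℝ) < p := by linarith
  have ht0 := abs_nonneg t
  have c1 : (0 : ℝ) ≤ 4 ^ (2 / ε) := by positivity
  have ht1 : (1 : ℝ) ≤ 1 + |t| := by linarith
  have htA1 : C1 * (1 + |t|) ^ A1 ≤ (p : ℝ) ^ ν := by
    refine le_trans ?_ ht
    have k1 : (1 + |t|) ^ A1 ≤ (1 + |t|) ^ (A1 + A2) := pow_le_pow_right₀ ht1 (by omega)
    have k2 : C1 ≤ C1 + C2 + 4 ^ (2 / ε) := by linarith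
    gcongr
  have htA2 : C2 * (1 + |t|) ^ A2 ≤ (p : ℝ) ^ ν := by
    refine le_trans ?_ ht
    have k1 : (1 + |t|) ^ A2 ≤ (1 + |t|) ^ (A1 + A2) := pow_le_pow_right₀ ht1 (by omega)
    have k2 : C2 ≤ C1 + C2 + 4 ^ (2 / ε) := by linarith
    gcongr
  rcases le_or_gt (2 * m) ν with h2m | h2m
  · exact h1 p hp7 ν m hmν (by omega) h2m hpm χ hχ t htA1
  -- the large cosets
  obtain ⟨q, hqd⟩ : ∃ q : ℝ, q = (p : ℝ) ^ ν := ⟨_, rfl⟩
  have h4q : 4 ^ (2 / ε) ≤ q := by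
    rw [hqd]
    refine le_trans ?_ ht
    have k1 : (1 : ℝ) ≤ (1 + |t|) ^ (A1 + A2) := one_le_pow₀ ht1
    have k2 : 4 ^ (2 / ε) ≤ C1 + C2 + 4 ^ (2 / ε) := by linarith
    calc 4 ^ (2 / ε) ≤ (C1 + C2 + 4 ^ (2 / ε)) * 1 := by linarith
      _ ≤ _ := by gcongr
  have hq1 : 1 ≤ q := by rw [hqd]; exact one_le_pow₀ hp1
  have hq0 : 0 < q := by linarith
  have h4 : (4 : ℝ) ≤ q ^ (ε / 2) := by
    calc (4 : ℝ) = ((4 : ℝ) ^ (2 / ε)) ^ (ε / 2) := by
          rw [← Real.rpow_mul (by norm_num)]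
          have : 2 / ε * (ε / 2) = 1 := by field_simp
          rw [this, Real.rpow_one]
      _ ≤ _ := Real.rpow_le_rpow (by positivity) h4q (by positivity)
  obtain ⟨m', hm'⟩ : ∃ m' : ℕ, m' = ν / 2 := ⟨_, rfl⟩
  have hm'm : m' ≤ m := by omega
  have hm'ν : m' < ν := by omega
  have h2m' : 2 * m' ≤ ν := by omega
  haveI : NeZero (p ^ m') := ⟨pow_ne_zero _ hp.ne_zero⟩
  have hbig : ((p : ℝ) ^ ν) ^ (1 / 4 + 1 / 8 : ℝ) ≤ (p : ℝ) ^ m' := by
    rw [← Real.rpow_natCast p m', ← Real.rpow_natCast p ν, ← Real.rpow_mul hp0.le]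
    refine Real.rpow_le_rpow_of_exponent_le hp1 ?_
    have k1 : (ν : ℝ) ≤ 2 * m' + 1 := by exact_mod_cast (by omega : ν ≤ 2 * m' + 1)
    have k2 : (10 : ℝ) ≤ ν := by exact_mod_cast (by omega : 10 ≤ ν)
    linarith
  have hdvd : p ^ m' ∣ p ^ m := pow_dvd_pow p hm'm
  have key := sub_avg (G := DirichletCharacter ℂ (p ^ m)) (K := DirichletCharacter ℂ (p ^ m'))
    (fun k => DirichletCharacter.changeLevel hdvd k) (fun θ => q ^ (-ε) ≤ LV hmν χ t θ)
    (c := q ^ (-(ε / 2)) * (p : ℝ) ^ m' / 2) (by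
      intro g
      have k1 := h2 p hp7 ν m' hm'ν (by omega) h2m' hbig
        (χ * DirichletCharacter.changeLevel (pow_dvd_pow p hmν.le) g) (prim_mul hp hmν hχ g) t htA2
      have k2 : (Nat.card {θ : DirichletCharacter ℂ (p ^ m') // ((p : ℝ) ^ ν) ^ (-(ε / 2)) ≤
          LV hm'ν (χ * DirichletCharacter.changeLevel (pow_dvd_pow p hmν.le) g) t θ} : ℝ) ≤
          (Nat.card {k : DirichletCharacter ℂ (p ^ m') // q ^ (-ε) ≤
            LV hmν χ t (g * DirichletCharacter.changeLevel hdvd k)} : ℝ) := by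
        have k3 : ∀ θ : DirichletCharacter ℂ (p ^ m'),
            LV hm'ν (χ * DirichletCharacter.changeLevel (pow_dvd_pow p hmν.le) g) t θ =
            LV hmν χ t (g * DirichletCharacter.changeLevel hdvd θ) := by
          intro θ
          unfold LV
          congr 2
          rw [map_mul, mul_assoc, ← DirichletCharacter.changeLevel_trans]
        have k4 : Nat.card {θ : DirichletCharacter ℂ (p ^ m') // ((p : ℝ) ^ ν) ^ (-(ε / 2)) ≤
          LV hm'ν (χ * DirichletCharacter.changeLevel (pow_dvd_pow p hmν.le) g) t θ} ≤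
          Nat.card {k : DirichletCharacter ℂ (p ^ m') // q ^ (-ε) ≤
            LV hmν χ t (g * DirichletCharacter.changeLevel hdvd k)} := by
          refine Nat.card_le_card_of_injective (fun x => ⟨x.1, ?_⟩) ?_
          · have k5 := x.2
            rw [k3] at k5
            refine le_trans ?_ k5
            rw [hqd]
            refine Real.rpow_le_rpow_of_exponent_le ?_ (by linarith)
            rw [← hqd]; exact hq1
          · intro x y hxy
            simp only [Subtype.mk.injEq] at hxy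
            exact Subtype.ext hxy
        exact_mod_cast k4
      refine le_trans ?_ (k1.trans k2)
      rw [← hqd]
      have hpm0 : (0 : ℝ) < (p : ℝ) ^ m' := by positivity
      have k6 : q ^ (19 / 58 : ℝ) ≤ (p : ℝ) ^ m' := by
        refine le_trans (Real.rpow_le_rpow_of_exponent_le hq1 ?_) (by rw [hqd]; exact hbig)
        norm_num
      rw [le_div_iff₀ (by positivity)]
      have k7 : 0 ≤ q ^ (-(ε / 2)) := by positivity
      calc q ^ (-(ε / 2)) * (p : ℝ) ^ m' / 2 * ((p : ℝ) ^ m' + q ^ (19 / 58 : ℝ))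
          ≤ q ^ (-(ε / 2)) * (p : ℝ) ^ m' / 2 * ((p : ℝ) ^ m' + (p : ℝ) ^ m') := by gcongr
        _ = _ := by ring)
  have hcardm : (p : ℝ) ^ m / 2 ≤ (Fintype.card (DirichletCharacter ℂ (p ^ m)) : ℝ) := by
    have e1 := DirichletCharacter.card_eq_totient_of_hasEnoughRootsOfUnity ℂ (p ^ m)
    rw [← Nat.card_eq_fintype_card, e1, Nat.totient_prime_pow hp (by omega)]
    push_cast [Nat.cast_sub hp.one_le]
    have h5 : (p : ℝ) ^ m = (p : ℝ) ^ (m - 1) * p := by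
      rw [← pow_succ]; congr 1; omega
    rw [h5]
    have : (0 : ℝ) < (p : ℝ) ^ (m - 1) := by positivity
    have hp2' : (2 : ℝ) ≤ p := by exact_mod_cast hp.two_le
    nlinarith
  have hcardm' : (Fintype.card (DirichletCharacter ℂ (p ^ m')) : ℝ) ≤ (p : ℝ) ^ m' := by
    have e1 := DirichletCharacter.card_eq_totient_of_hasEnoughRootsOfUnity ℂ (p ^ m')
    rw [← Nat.card_eq_fintype_card, e1]
    exact_mod_cast Nat.totient_le (p ^ m')
  rw [← hqd]
  obtain ⟨n, hn⟩ : ∃ n : ℝ, n = (Nat.card {θ : DirichletCharacter ℂ (p ^ m) // q ^ (-ε) ≤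
    LV hmν χ t θ} : ℝ) := ⟨_, rfl⟩
  rw [← hn] at key ⊢
  have hn0 : 0 ≤ n := by rw [hn]; positivity
  have hpm'0 : (0 : ℝ) < (p : ℝ) ^ m' := by positivity
  have hpm0 : (0 : ℝ) < (p : ℝ) ^ m := by positivity
  have k8 : (p : ℝ) ^ m / 2 * (q ^ (-(ε / 2)) * (p : ℝ) ^ m' / 2) ≤ (p : ℝ) ^ m' * n := by
    calc _ ≤ (Fintype.card (DirichletCharacter ℂ (p ^ m)) : ℝ) *
          (q ^ (-(ε / 2)) * (p : ℝ) ^ m' / 2) := by gcongr
      _ ≤ _ := key
      _ ≤ _ := by gcongr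
  have k9 : (p : ℝ) ^ m * q ^ (-(ε / 2)) / 4 ≤ n := by
    have : (p : ℝ) ^ m' * ((p : ℝ) ^ m * q ^ (-(ε / 2)) / 4) ≤ (p : ℝ) ^ m' * n := by
      calc _ = (p : ℝ) ^ m / 2 * (q ^ (-(ε / 2)) * (p : ℝ) ^ m' / 2) := by ring
        _ ≤ _ := k8
    exact le_of_mul_le_mul_left this hpm'0
  refine le_trans ?_ k9
  have k10 : 4 * q ^ (-ε) ≤ q ^ (-(ε / 2)) := by
    calc 4 * q ^ (-ε) ≤ q ^ (ε / 2) * q ^ (-ε) := by gcongr
      _ = _ := by rw [← Real.rpow_add hq0]; congr 1; ring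
  have k11 : (0 : ℝ) ≤ q ^ (19 / 58 : ℝ) := by positivity
  rw [div_le_iff₀ (by positivity)]
  calc q ^ (-ε) * ((p : ℝ) ^ m) ^ 2 ≤ (q ^ (-(ε / 2)) / 4) * ((p : ℝ) ^ m) ^ 2 := by
        gcongr
        linarith
    _ = (p : ℝ) ^ m * q ^ (-(ε / 2)) / 4 * (p : ℝ) ^ m := by ring
    _ ≤ _ := by
        refine mul_le_mul_of_nonneg_left (by linarith) (by positivity)

end Pool.Agent.Y766.R8
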