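import Mathlib

/-!
Statements for project R8: large (so nonzero) values of `L(1/2+it, χ)` in thin cosets.
-/

set_option autoImplicit false

namespace Pool.Agent.Y766.R8

open Finset

/-- INC: short sums of a primitive character mod `p^ν` over `n ≡ l₀ mod p^m` -/
def S_INC : Prop := ∀ (p ν m : ℕ), p.Prime → p ≠ 2 → 1 ≤ m → 2 * m ≤ ν →
  ∀ χ : DirichletCharacter ℂ (p ^ ν), χ.IsPrimitive →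
  ∃ a : ℤ, ¬ (p : ℤ) ∣ a ∧ 2 * |a| ≤ (p : ℤ) ^ m ∧
  ∀ l0 : ℕ, ¬ p ∣ l0 → ¬ (l0 : ℤ) ∣ a → ∀ J : ℕ,
    ‖∑ j ∈ range J, χ (((l0 : ℤ) + (p : ℤ) ^ m * j : ℤ) : ZMod (p ^ ν))‖ ≤
      10 * l0 * (p : ℝ) ^ ((ν + 1) / 2) * (1 + ν * Real.log p) / (p : ℝ) ^ m

/-- L0: a small number prime to `p` that does not divide `a` -/
def S_L0 : Prop := ∀ δ : ℝ, 0 < δ → ∃ C : ℝ, ∀ p : ℕ, p.Prime → ∀ Q : ℝ, C ≤ Q →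
  ∀ a : ℤ, a ≠ 0 → |(a : ℝ)| ≤ Q →
  ∃ l0 : ℕ, 1 ≤ l0 ∧ (l0 : ℝ) ≤ Q ^ δ ∧ ¬ p ∣ l0 ∧ ¬ (l0 : ℤ) ∣ a

/-- the number of `k ≤ K` whose residue class modulo `d` lies in the subgroup `U` -/
noncomputable def NU {d : ℕ} (U : Subgroup (ZMod d)ˣ) (K : ℕ) : ℕ := by
  classical
  exact ((Icc 1 K).filter (fun k : ℕ => ∃ u ∈ U, ((u : (ZMod d)ˣ) : ZMod d) = (k : ZMod d))).card

/-- SUB: few small elements in thin subgroups of `(ℤ/d)ˣ` -/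
def S_SUB : Prop := ∀ δ κ : ℝ, 0 < δ → 0 < κ → ∃ η C : ℝ, 0 < η ∧ 0 < C ∧
  ∀ (q d : ℕ) [NeZero d] (h : ℝ), d ≤ q → (q : ℝ) ^ (1 / 2 + δ) ≤ h →
  (d : ℝ) ^ (2 / 3 : ℝ) * (q : ℝ) ^ δ ≤ h →
  ∀ U : Subgroup (ZMod d)ˣ, (Nat.card U : ℝ) * h ≤ d →
  ∀ K : ℕ, (q : ℝ) ^ κ ≤ K → (K : ℝ) ≤ h ^ 2 * (q : ℝ) ^ (-δ) →
    (NU U K : ℝ) ≤ C * (K : ℝ) ^ (1 / 2 : ℝ) * (q : ℝ) ^ (-η)

end Pool.Agent.Y766.R8
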